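import Pool.Agent.Helper85.MU.Stmts
import Pool.Agent.Helper40.AbMot.Herm
import Pool.Agent.Helper81.AbMot.Inrt
import Pool.Agent.Helper81.AbMot.Diff

/-!
# The theorem of Hermite for closed normal subgroups of bounded index
-/

set_option autoImplicit false

open NumberField

namespace MU

/-- a closed subgroup of finite index is the fixing subgroup of its fixed field -/
lemma her_fix {F : Type} [Field F] [NumberField F] (Y : Subgroup (Gal F))
    (hYc : IsClosed (Y : Set (Gal F))) :
    (IntermediateField.fixedField Y).fixingSubgroup = Y :=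
  InfiniteGalois.fixingSubgroup_fixedField (k := F) (K := AlgebraicClosure F) ⟨Y, hYc⟩

theorem st_HER : ST_HER := by
  intro F _ _ S hS D
  have hfin := AbMot.hermite_of (F := F)
    (fun K _ _ S hS h => AbMot.diff_dvd S hS h) D S hS
  set 𝒦 : Set (IntermediateField F (AlgebraicClosure F)) :=
    {K | ∃ (_ : NumberField K), IsGalois F K ∧
      Module.finrank F K ≤ D ∧ ∀ (Q : Ideal (𝓞 K)) (_ : Q.IsPrime), Q ≠ ⊥ →
        (∀ p ∈ S, (p : 𝓞 K) ∉ Q) → Algebra.IsUnramifiedAt (𝓞 F) Q} with h𝒦
  have hfin' : Finite 𝒦 := hfin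
  refine ⟨⨅ K : 𝒦, (K : IntermediateField F (AlgebraicClosure F)).fixingSubgroup, ?_, ?_, ?_⟩
  · constructor
    intro g hg x
    rw [Subgroup.mem_iInf] at hg ⊢
    intro K
    obtain ⟨hN, hG, -, -⟩ := K.2
    have hnorm : (K : IntermediateField F (AlgebraicClosure F)).fixingSubgroup.Normal :=
      InfiniteGalois.normal_iff_isGalois _ |>.2 hG
    exact hnorm.conj_mem g (hg K) x
  · rw [Subgroup.coe_iInf]
    refine isOpen_iInter_of_finite fun K => ?_
    obtain ⟨hN, hG, -, -⟩ := K.2
    have hfd : FiniteDimensional F (K : IntermediateField F (AlgebraicClosure F)) :=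
      Module.Finite.right ℚ F _
    exact (InfiniteGalois.isOpen_iff_finite _).2 hfd
  · intro Y hYn hYc hY0 hYD hin
    have hfix := her_fix Y hYc
    have hYf : Y.FiniteIndex := ⟨hY0⟩
    have hYo : IsOpen (Y : Set (Gal F)) := Subgroup.isOpen_of_isClosed_of_finiteIndex Y hYc
    have hfd : FiniteDimensional F (IntermediateField.fixedField Y) := by
      rw [← InfiniteGalois.isOpen_iff_finite]
      change IsOpen ((IntermediateField.fixedField Y).fixingSubgroup : Set (Gal F))
      rw [hfix]
      exact hYo
    have hgal : IsGalois F (IntermediateField.fixedField Y) := by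
      rw [← InfiniteGalois.normal_iff_isGalois, hfix]
      exact hYn
    have hnf : NumberField (IntermediateField.fixedField Y) := NumberField.of_module_finite F _
    have hrk : Module.finrank F (IntermediateField.fixedField Y) ≤ D := by
      rw [IntermediateField.finrank_eq_fixingSubgroup_index, hfix]
      exact hYD
    have hmem : IntermediateField.fixedField Y ∈ 𝒦 := by
      refine ⟨hnf, hgal, hrk, ?_⟩
      intro Q hQp hQ0 hQS
      have hQm : Q.IsMaximal := Ideal.IsPrime.isMaximal hQp hQ0
      set v : Ideal (𝓞 F) := Q.comap (algebraMap (𝓞 F) (𝓞 (IntermediateField.fixedField Y)))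
        with hv
      have hvp : v.IsPrime := Ideal.comap_isPrime _ Q
      have hv0 : v ≠ ⊥ := by
        intro h0
        exact hQ0 (Ideal.eq_bot_of_comap_eq_bot (R := 𝓞 F) (hv ▸ h0))
      refine AbMot.unramified_of_inert (IntermediateField.fixedField Y) v hvp hv0 ?_ Q rfl
      rintro σ ⟨𝔓, h𝔓p, h𝔓v, h𝔓σ⟩
      rw [hfix]
      -- the residue characteristic
      have hpe : ∃ p : ℕ, p.Prime ∧ (p : 𝓞 F) ∈ v := by
        have hne : v.comap (algebraMap ℤ (𝓞 F)) ≠ ⊥ := by
          intro h0
          exact hv0 (Ideal.eq_bot_of_comap_eq_bot (R := ℤ) h0)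
        have hpr : (v.comap (algebraMap ℤ (𝓞 F))).IsPrime := Ideal.comap_isPrime _ v
        obtain ⟨a, ha⟩ := (IsPrincipalIdealRing.principal (v.comap (algebraMap ℤ (𝓞 F)))).principal
        have ha0 : a ≠ 0 := by
          rintro rfl
          apply hne
          rw [ha]
          simp
        have hap : Prime a := by
          rw [← Ideal.span_singleton_prime ha0]
          rw [ha] at hpr
          exact hpr
        refine ⟨a.natAbs, Int.prime_iff_natAbs_prime.1 hap, ?_⟩
        have hmem : a ∈ v.comap (algebraMap ℤ (𝓞 F)) := by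
          rw [ha]
          exact Ideal.mem_span_singleton_self a
        have h2 : (a : 𝓞 F) ∈ v := by
          rw [Ideal.mem_comap] at hmem
          simpa using hmem
        rcases Int.natAbs_eq a with h | h
        · rw [h, Int.cast_natCast] at h2
          exact h2
        · rw [h, Int.cast_neg, Int.cast_natCast] at h2
          simpa using v.neg_mem h2
      obtain ⟨p, hp, hpv⟩ := hpe
      have hpQ : (p : 𝓞 (IntermediateField.fixedField Y)) ∈ Q := by
        have : algebraMap (𝓞 F) (𝓞 (IntermediateField.fixedField Y)) (p : 𝓞 F) ∈ Q := hpv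
        rwa [map_natCast] at this
      have hpS : p ∉ S := fun h => hQS p h hpQ
      refine hin p hp hpS 𝔓 ⟨h𝔓p, ?_⟩ σ ?_
      · refine (h𝔓v (p : 𝓞 F) (p : integralClosure ℤ (AlgebraicClosure F)) ?_).1 hpv
        simp
      · intro x y hxy
        rw [pow_one]
        exact h𝔓σ x y hxy
    have hle : (⨅ K : 𝒦, (K : IntermediateField F (AlgebraicClosure F)).fixingSubgroup) ≤
        (IntermediateField.fixedField Y).fixingSubgroup :=
      iInf_le (fun K : 𝒦 => (K : IntermediateField F (AlgebraicClosure F)).fixingSubgroup)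
        ⟨IntermediateField.fixedField Y, hmem⟩
    rwa [hfix] at hle

end MU
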