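import Mathlib

/-!
# Faltings' argument for a pair of 2-adic representations
-/

set_option autoImplicit false

namespace MU

/-- the algebra of pairs of matrices over the `2`-adic integers -/
abbrev FalE (n : ℕ) : Type := Matrix (Fin n) (Fin n) ℤ_[2] × Matrix (Fin n) (Fin n) ℤ_[2]

section

variable {G : Type} [Group G] {n : ℕ} (φ : G →* FalE n)

/-- the span of the image -/
noncomputable def falN : Submodule ℤ_[2] (FalE n) := Submodule.span ℤ_[2] (Set.range φ)

lemma fal_mem (g : G) : φ g ∈ falN φ := Submodule.subset_span ⟨g, rfl⟩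

lemma fal_mul_left (g : G) {x : FalE n} (hx : x ∈ falN φ) : φ g * x ∈ falN φ := by
  refine Submodule.span_induction (p := fun y _ => φ g * y ∈ falN φ) ?_ ?_ ?_ ?_ hx
  · rintro _ ⟨h, rfl⟩
    rw [← map_mul]
    exact fal_mem φ _
  · rw [mul_zero]; exact Submodule.zero_mem _
  · intro a b _ _ ha hb
    rw [mul_add]
    exact Submodule.add_mem _ ha hb
  · intro c a _ ha
    rw [mul_smul_comm]
    exact Submodule.smul_mem _ _ ha

lemma fal_mul_right (g : G) {x : FalE n} (hx : x ∈ falN φ) : x * φ g ∈ falN φ := by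
  refine Submodule.span_induction (p := fun y _ => y * φ g ∈ falN φ) ?_ ?_ ?_ ?_ hx
  · rintro _ ⟨h, rfl⟩
    rw [← map_mul]
    exact fal_mem φ _
  · rw [zero_mul]; exact Submodule.zero_mem _
  · intro a b _ _ ha hb
    rw [add_mul]
    exact Submodule.add_mem _ ha hb
  · intro c a _ ha
    rw [smul_mul_assoc]
    exact Submodule.smul_mem _ _ ha

/-- the subgroup of elements congruent to the identity modulo `2 N` -/
noncomputable def falY : Subgroup G where
  carrier := {g | ∃ a ∈ falN φ, φ g - 1 = (2 : ℤ_[2]) • a}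
  one_mem' := ⟨0, Submodule.zero_mem _, by rw [map_one, sub_self, smul_zero]⟩
  mul_mem' := by
    rintro g h ⟨a, ha, hga⟩ ⟨b, hb, hhb⟩
    refine ⟨φ g * b + a, Submodule.add_mem _ (fal_mul_left φ g hb) ha, ?_⟩
    rw [smul_add, ← mul_smul_comm, ← hhb, ← hga, map_mul, mul_sub, mul_one]
    abel
  inv_mem' := by
    rintro g ⟨a, ha, hga⟩
    refine ⟨-(φ g⁻¹ * a), Submodule.neg_mem _ (fal_mul_left φ _ ha), ?_⟩
    rw [smul_neg, ← mul_smul_comm, ← hga, mul_sub, mul_one, ← map_mul, inv_mul_cancel, map_one]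
    abel

lemma mem_falY (g : G) : g ∈ falY φ ↔ ∃ a ∈ falN φ, φ g - 1 = (2 : ℤ_[2]) • a := Iff.rfl

lemma falY_of_eq_one {g : G} (hg : φ g = 1) : g ∈ falY φ :=
  ⟨0, Submodule.zero_mem _, by rw [hg, sub_self, smul_zero]⟩

lemma falY_normal : (falY φ).Normal := by
  constructor
  rintro g ⟨a, ha, hga⟩ x
  refine ⟨φ x * a * φ x⁻¹, fal_mul_right φ _ (fal_mul_left φ _ ha), ?_⟩
  rw [← smul_mul_assoc, ← mul_smul_comm, ← hga, mul_sub, sub_mul, mul_one, ← map_mul, ← map_mul,
    ← map_mul, mul_inv_cancel, map_one]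

lemma mem_falY_iff (g g' : G) : g⁻¹ * g' ∈ falY φ ↔ ∃ a ∈ falN φ, φ g' - φ g = (2 : ℤ_[2]) • a := by
  constructor
  · rintro ⟨a, ha, h⟩
    refine ⟨φ g * a, fal_mul_left φ _ ha, ?_⟩
    rw [← mul_smul_comm, ← h, mul_sub, mul_one, ← map_mul, mul_inv_cancel_left]
  · rintro ⟨a, ha, h⟩
    refine ⟨φ g⁻¹ * a, fal_mul_left φ _ ha, ?_⟩
    rw [← mul_smul_comm, ← h, mul_sub, ← map_mul, ← map_mul, inv_mul_cancel, map_one]

instance : Module.Finite ℤ_[2] (falN φ) := inferInstance

lemma fal_fg : (falN φ).FG := (Submodule.fg_top _).1 (Module.Finite.fg_top (R := ℤ_[2]) (M := falN φ))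

/-- the index is bounded -/
lemma falY_index : (falY φ).index ≠ 0 ∧ (falY φ).index ≤ 2 ^ (2 * n ^ 2) := by
  classical
  set r : ℕ := Module.finrank ℤ_[2] (falN φ) with hr
  have hrle : r ≤ 2 * n ^ 2 := by
    have h1 : r ≤ Module.finrank ℤ_[2] (FalE n) := Submodule.finrank_le _
    have h2 : Module.finrank ℤ_[2] (FalE n) = 2 * n ^ 2 := by
      rw [Module.finrank_prod, Module.finrank_matrix, Module.finrank_self]
      simp
      ring
    omega
  let b : Module.Basis (Fin r) ℤ_[2] (falN φ) := Module.finBasis ℤ_[2] (falN φ)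
  let f : G → (Fin r → ZMod 2) := fun g i => PadicInt.toZMod (b.repr ⟨φ g, fal_mem φ g⟩ i)
  have hf : ∀ g g', f g = f g' → g⁻¹ * g' ∈ falY φ := by
    intro g g' hgg
    rw [mem_falY_iff]
    have h1 : ∀ i, ∃ c : ℤ_[2], b.repr ⟨φ g', fal_mem φ g'⟩ i - b.repr ⟨φ g, fal_mem φ g⟩ i = 2 * c := by
      intro i
      have h2 : b.repr ⟨φ g', fal_mem φ g'⟩ i - b.repr ⟨φ g, fal_mem φ g⟩ i ∈
          RingHom.ker (PadicInt.toZMod (p := 2)) := by
        rw [RingHom.mem_ker, map_sub, sub_eq_zero]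
        exact (congrFun hgg i).symm
      rw [PadicInt.ker_toZMod, PadicInt.maximalIdeal_eq_span_p, Ideal.mem_span_singleton] at h2
      obtain ⟨c, hc⟩ := h2
      exact ⟨c, by rw [hc]; norm_num⟩
    choose c hc using h1
    refine ⟨((b.equivFun.symm c : falN φ) : FalE n), Subtype.mem _, ?_⟩
    have h3 : (⟨φ g', fal_mem φ g'⟩ : falN φ) - ⟨φ g, fal_mem φ g⟩ = (2 : ℤ_[2]) • b.equivFun.symm c := by
      apply b.equivFun.injective
      ext i
      rw [map_sub, map_smul, LinearEquiv.apply_symm_apply]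
      simp only [Pi.sub_apply, Pi.smul_apply, smul_eq_mul, Module.Basis.equivFun_apply]
      exact hc i
    have h4 := congrArg (Subtype.val) h3
    exact h4
  let F : G ⧸ falY φ → (Fin r → ZMod 2) := fun q => f q.out
  have hF : Function.Injective F := by
    intro q q' hqq
    have h5 := hf _ _ hqq
    rw [← QuotientGroup.eq, QuotientGroup.out_eq', QuotientGroup.out_eq'] at h5
    exact h5
  have hfin : Finite (G ⧸ falY φ) := Finite.of_injective F hF
  refine ⟨?_, ?_⟩
  · have : (falY φ).FiniteIndex := Subgroup.finiteIndex_of_finite_quotient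
    exact Subgroup.FiniteIndex.index_ne_zero
  · have h6 : Nat.card (G ⧸ falY φ) ≤ Nat.card (Fin r → ZMod 2) :=
      Nat.card_le_card_of_injective F hF
    have h7 : Nat.card (Fin r → ZMod 2) = 2 ^ r := by
      simp
    calc (falY φ).index = Nat.card (G ⧸ falY φ) := rfl
      _ ≤ 2 ^ r := by rw [← h7]; exact h6
      _ ≤ 2 ^ (2 * n ^ 2) := Nat.pow_le_pow_right (by norm_num) hrle

lemma fal_closed [TopologicalSpace G] (hφ : Continuous φ) : IsClosed (falY φ : Set G) := by
  classical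
  let b : Module.Basis (Fin (Module.finrank ℤ_[2] (falN φ))) ℤ_[2] (falN φ) :=
    Module.finBasis ℤ_[2] (falN φ)
  let Φ : (Fin (Module.finrank ℤ_[2] (falN φ)) → ℤ_[2]) → FalE n := fun c =>
    1 + ∑ i, c i • ((2 : ℤ_[2]) • ((b i : falN φ) : FalE n))
  have hΦ : Continuous Φ := by
    refine continuous_const.add (continuous_finsetSum _ fun i _ => ?_)
    exact (continuous_apply i).smul continuous_const
  have hcl : IsClosed (Set.range Φ) := (isCompact_range hΦ).isClosed
  have heq : (falY φ : Set G) = φ ⁻¹' Set.range Φ := by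
    ext g
    constructor
    · rintro ⟨a, ha, hga⟩
      refine ⟨b.equivFun ⟨a, ha⟩, ?_⟩
      have h1 : (∑ i, b.equivFun ⟨a, ha⟩ i • b i : falN φ) = ⟨a, ha⟩ := b.sum_equivFun _
      have h2 := congrArg Subtype.val h1
      simp only [Submodule.coe_sum, Submodule.coe_smul] at h2
      change 1 + ∑ i, b.equivFun ⟨a, ha⟩ i • ((2 : ℤ_[2]) • ((b i : falN φ) : FalE n)) = φ g
      have h3 : ∑ i, b.equivFun ⟨a, ha⟩ i • ((2 : ℤ_[2]) • ((b i : falN φ) : FalE n)) =
          (2 : ℤ_[2]) • a := by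
        refine Eq.trans ?_ (congrArg (fun z => (2 : ℤ_[2]) • z) h2)
        rw [Finset.smul_sum]
        exact Finset.sum_congr rfl fun i _ => smul_comm _ _ _
      rw [h3, ← hga]
      abel
    · rintro ⟨c, hc⟩
      refine ⟨∑ i, c i • ((b i : falN φ) : FalE n), ?_, ?_⟩
      · exact Submodule.sum_mem _ fun i _ => Submodule.smul_mem _ _ (b i).2
      · rw [← hc]
        change 1 + ∑ i, c i • ((2 : ℤ_[2]) • ((b i : falN φ) : FalE n)) - 1 = _
        rw [add_sub_cancel_left, Finset.smul_sum]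
        exact Finset.sum_congr rfl fun i _ => smul_comm _ _ _
  rw [heq]
  exact hcl.preimage hφ

/-- Nakayama: a functional which vanishes on representatives of the cosets vanishes. -/
lemma fal_nakayama (L : FalE n →ₗ[ℤ_[2]] ℤ_[2]) {ι : Type} (s : ι → G)
    (hs : ∀ g, ∃ i, g⁻¹ * s i ∈ falY φ) (hL : ∀ i, L (φ (s i)) = 0) (g : G) : L (φ g) = 0 := by
  set N' : Submodule ℤ_[2] (FalE n) := Submodule.span ℤ_[2] (Set.range fun i => φ (s i)) with hN'
  have hle : falN φ ≤ N' ⊔ (Ideal.span {(2 : ℤ_[2])}) • falN φ := by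
    refine Submodule.span_le.2 ?_
    rintro _ ⟨g, rfl⟩
    obtain ⟨i, hi⟩ := hs g
    rw [mem_falY_iff] at hi
    obtain ⟨a, ha, hga⟩ := hi
    have h1 : φ g = φ (s i) + -((2 : ℤ_[2]) • a) := by
      rw [← hga]; abel
    rw [SetLike.mem_coe, h1]
    refine Submodule.add_mem _ ?_ (Submodule.neg_mem _ ?_)
    · exact Submodule.mem_sup_left (Submodule.subset_span ⟨i, rfl⟩)
    · exact Submodule.mem_sup_right
        (Submodule.smul_mem_smul (Ideal.mem_span_singleton_self _) ha)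
  have hjac : Ideal.span {(2 : ℤ_[2])} ≤ Ideal.jacobson ⊥ := by
    rw [IsLocalRing.jacobson_eq_maximalIdeal ⊥ bot_ne_top, PadicInt.maximalIdeal_eq_span_p]
    norm_num
  have h2 : falN φ ≤ N' := Submodule.le_of_le_smul_of_le_jacobson_bot (fal_fg φ) hjac hle
  have h3 : N' ≤ LinearMap.ker L := by
    refine Submodule.span_le.2 ?_
    rintro _ ⟨i, rfl⟩
    exact hL i
  exact h3 (h2 (fal_mem φ g))

end

end MU
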