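import Pool.Agent.Helper85.MU.Stmts
import Pool.Agent.Helper40.MU.FalA

/-!
# Faltings' finiteness argument: finitely many trace functions
-/

set_option autoImplicit false

open NumberField

namespace MU

section

variable {F : Type} [Field F] [NumberField F] {S : Finset ℕ} {n w : ℕ} {h : Fin n → ℕ}

/-- the traces of (powers of) Frobenius elements are bounded integers -/
lemma fal_trace (M : Mot F S n w h) (p : ℕ) (hp : p.Prime) (hpS : p ∉ S) (hp2 : p ≠ 2)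
    (𝔓 : Ideal (Zb F)) (hO : Over p 𝔓) (k : ℕ) (σ : Gal F) (hk : 1 ≤ k)
    (hσ : CongPow 𝔓 (p ^ k) σ) :
    ∃ t : ℤ, |t| ≤ ((n * p ^ (k * w) : ℕ) : ℤ) ∧
      ((M.ρ 2 σ⁻¹ : Matrix.GeneralLinearGroup (Fin n) ℤ_[2]) :
        Matrix (Fin n) (Fin n) ℤ_[2]).trace = (t : ℤ_[2]) := by
  obtain ⟨P, hroot, hP⟩ := M.pure p hp hpS 𝔓 hO k σ hk hσ
  have hP2 := hP 2 (Ne.symm hp2)
  have hinj : Function.Injective (Int.castRingHom ℤ_[2]) := (Int.castRingHom ℤ_[2]).injective_int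
  have hinjC : Function.Injective (Int.castRingHom ℂ) := (Int.castRingHom ℂ).injective_int
  have hmon : P.Monic := by
    refine Polynomial.monic_of_injective hinj ?_
    rw [← hP2]
    exact Matrix.charpoly_monic _
  have hdeg : P.natDegree = n := by
    rw [← Polynomial.natDegree_map_eq_of_injective hinj, ← hP2, Matrix.charpoly_natDegree_eq_dim,
      Fintype.card_fin]
  refine ⟨-P.nextCoeff, ?_, ?_⟩
  · -- bound by the complex roots
    set Q : Polynomial ℂ := P.map (Int.castRingHom ℂ) with hQ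
    have hQm : Q.Monic := hmon.map _
    have hQs : Q.Splits := IsAlgClosed.splits Q
    have hQd : Q.natDegree = n := by
      rw [hQ, Polynomial.natDegree_map_eq_of_injective hinjC, hdeg]
    have h1 : Q.nextCoeff = -Q.roots.sum := hQs.nextCoeff_eq_neg_sum_roots_of_monic hQm
    have h2 : Q.nextCoeff = ((P.nextCoeff : ℤ) : ℂ) := by
      rw [hQ, Polynomial.nextCoeff_map hinjC]
      rfl
    have hp1 : (1 : ℝ) ≤ (p : ℝ) ^ (k * w) := one_le_pow₀ (by exact_mod_cast hp.one_le)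
    have hz : ∀ z ∈ Q.roots, ‖z‖ ≤ (p : ℝ) ^ (k * w) := by
      intro z hz
      have h3 := hroot z (Polynomial.isRoot_of_mem_roots hz)
      have h4 : 0 ≤ ‖z‖ := norm_nonneg z
      by_contra hcon
      push Not at hcon
      nlinarith
    have hcard : Q.roots.card = n := by
      rw [← hQd]
      exact (Polynomial.splits_iff_card_roots.1 hQs)
    have h5 : ‖Q.roots.sum‖ ≤ n * (p : ℝ) ^ (k * w) := by
      refine (norm_multiset_sum_le _).trans ?_
      have h6 : ∀ x ∈ Q.roots.map (fun z => ‖z‖), x ≤ (p : ℝ) ^ (k * w) := by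
        intro x hx
        obtain ⟨z, hzm, rfl⟩ := Multiset.mem_map.1 hx
        exact hz z hzm
      have h7 := Multiset.sum_le_card_nsmul _ _ h6
      rw [Multiset.card_map, hcard, nsmul_eq_mul] at h7
      exact h7
    have h8 : ‖((P.nextCoeff : ℤ) : ℂ)‖ = ‖Q.roots.sum‖ := by
      rw [← h2, h1, norm_neg]
    rw [Complex.norm_intCast] at h8
    have h9 : ((|-P.nextCoeff| : ℤ) : ℝ) ≤ (((n * p ^ (k * w) : ℕ) : ℤ) : ℝ) := by
      rw [abs_neg, Int.cast_abs, h8]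
      push_cast
      exact h5
    exact_mod_cast h9
  · rw [Matrix.trace_eq_neg_charpoly_nextCoeff, hP2, Polynomial.nextCoeff_map hinj]
    push_cast
    rfl

lemma fal_rat_trace (M : Mot F S n w h) (g : Gal F) : (rat (M.ρ 2) g).trace =
    (((M.ρ 2 g : Matrix (Fin n) (Fin n) ℤ_[2]).trace : ℤ_[2]) : ℚ_[2]) := by
  have h1 : rat (M.ρ 2) g = (M.ρ 2 g : Matrix (Fin n) (Fin n) ℤ_[2]).map (algebraMap ℤ_[2] ℚ_[2]) :=
    rfl
  rw [h1, Matrix.trace, Matrix.trace]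
  simp only [Matrix.diag_apply, Matrix.map_apply]
  exact (map_sum (algebraMap ℤ_[2] ℚ_[2]) _ _).symm

end

theorem st_FAL (hFRB : ST_FRB) (hHER : ST_HER) : ST_FAL := by
  intro F _ _ S hS n w h
  classical
  have hS' : ∀ p ∈ insert 2 S, p.Prime := by
    intro p hp
    rcases Finset.mem_insert.1 hp with rfl | hp
    · exact Nat.prime_two
    · exact hS p hp
  obtain ⟨Y₀, hY₀n, hY₀o, hY₀⟩ := hHER F (insert 2 S) hS' (2 ^ (2 * n ^ 2))
  have hfin : Finite (Gal F ⧸ Y₀) := Subgroup.quotient_finite_of_isOpen Y₀ hY₀o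
  have hfrb := fun q : Gal F ⧸ Y₀ => hFRB F Y₀ hY₀n hY₀o (insert 2 S) (q.out)⁻¹
  choose p 𝔓 k σ hp hpS hO hk hc hY using hfrb
  have hp2 : ∀ q, p q ≠ 2 := fun q hq => hpS q (by rw [hq]; exact Finset.mem_insert_self _ _)
  have hpS2 : ∀ q, p q ∉ S := fun q hq => hpS q (Finset.mem_insert_of_mem hq)
  have htr := fun (M : Mot F S n w h) (q : Gal F ⧸ Y₀) =>
    fal_trace M (p q) (hp q) (hpS2 q) (hp2 q) (𝔓 q) (hO q) (k q) (σ q) (hk q) (hc q)
  choose t ht htt using htr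
  refine ⟨∀ q : Gal F ⧸ Y₀, ↥(Finset.Icc (-((n * p q ^ (k q * w) : ℕ) : ℤ))
    ((n * p q ^ (k q * w) : ℕ) : ℤ)), inferInstance,
    fun M q => ⟨t M q, Finset.mem_Icc.2 (abs_le.1 (ht M q))⟩, ?_⟩
  intro M M' hcol g
  have hcol' : ∀ q, t M q = t M' q := fun q => congrArg Subtype.val (congrFun hcol q)
  -- the pair
  let φ : Gal F →* FalE n :=
    ((Units.coeHom (Matrix (Fin n) (Fin n) ℤ_[2])).comp (M.ρ 2)).prod
      ((Units.coeHom (Matrix (Fin n) (Fin n) ℤ_[2])).comp (M'.ρ 2))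
  have hφ : Continuous φ :=
    (Units.continuous_val.comp (M.continuous 2)).prodMk
      (Units.continuous_val.comp (M'.continuous 2))
  have hφ1 : ∀ g, (φ g).1 = (M.ρ 2 g : Matrix (Fin n) (Fin n) ℤ_[2]) := fun _ => rfl
  have hφ2 : ∀ g, (φ g).2 = (M'.ρ 2 g : Matrix (Fin n) (Fin n) ℤ_[2]) := fun _ => rfl
  have hle : Y₀ ≤ falY φ := by
    refine hY₀ (falY φ) (falY_normal φ) (fal_closed φ hφ) (falY_index φ).1 (falY_index φ).2 ?_
    intro p hp hpS 𝔓 hO σ hσ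
    have hpS1 : p ∉ S := fun h => hpS (Finset.mem_insert_of_mem h)
    have hp2 : p ≠ 2 := fun h => hpS (by rw [h]; exact Finset.mem_insert_self _ _)
    refine falY_of_eq_one φ ?_
    refine Prod.ext ?_ ?_
    · rw [hφ1, M.good 2 p hp hpS1 hp2 𝔓 hO σ hσ]
      rfl
    · rw [hφ2, M'.good 2 p hp hpS1 hp2 𝔓 hO σ hσ]
      rfl
  let L : FalE n →ₗ[ℤ_[2]] ℤ_[2] :=
    (Matrix.traceLinearMap (Fin n) ℤ_[2] ℤ_[2]).comp (LinearMap.fst _ _ _) -
      (Matrix.traceLinearMap (Fin n) ℤ_[2] ℤ_[2]).comp (LinearMap.snd _ _ _)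
  have hL : ∀ x : FalE n, L x = x.1.trace - x.2.trace := fun _ => rfl
  have key := fal_nakayama φ L (ι := Gal F ⧸ Y₀) (fun q => (σ q)⁻¹) ?_ ?_ g
  · rw [hL, hφ1, hφ2, sub_eq_zero] at key
    rw [fal_rat_trace, fal_rat_trace, key]
  · intro g
    refine ⟨(g : Gal F ⧸ Y₀), hle ?_⟩
    set q : Gal F ⧸ Y₀ := (g : Gal F ⧸ Y₀) with hq
    have h1 : (q.out)⁻¹ * g ∈ Y₀ := by
      rw [← QuotientGroup.eq, QuotientGroup.out_eq']
    have h2 : q.out * σ q ∈ Y₀ := by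
      have := hY q
      rwa [inv_inv] at this
    have h3 : σ q * q.out ∈ Y₀ := by
      have := hY₀n.conj_mem _ h2 (q.out)⁻¹
      simpa [mul_assoc] using this
    have h4 : (q.out)⁻¹ * (σ q)⁻¹ ∈ Y₀ := by
      have := Y₀.inv_mem h3
      rwa [mul_inv_rev] at this
    have h5 : g⁻¹ * q.out ∈ Y₀ := by
      have := Y₀.inv_mem h1
      rwa [mul_inv_rev, inv_inv] at this
    have := Y₀.mul_mem h5 h4
    simpa [mul_assoc] using this
  · intro q
    rw [hL, hφ1, hφ2, htt M q, htt M' q, hcol' q, sub_self]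

end MU
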